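import Pool.Agent.Helper97.Tate.Goals

/-!
# FewPoints (MP_d3128a_ag), packet TATE-LIN: theta functions form a module
-/

set_option autoImplicit false

open Pool.Agent.Helper97.Tate

namespace Pool.Agent.Helper40.Tate.LIN

variable {k : Type} [Field k]

theorem cf_zero (N n : ℤ) : cf (0 : SS k) N n = 0 := by
  unfold cf
  split_ifs
  · rw [map_zero, AddMonoidAlgebra.coeff_zero]
    rfl
  · rfl

theorem cf_add (f g : SS k) (N n : ℤ) : cf (f + g) N n = cf f N n + cf g N n := by
  unfold cf
  split_ifs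
  · rw [map_add, AddMonoidAlgebra.coeff_add]
    rfl
  · rw [add_zero]

theorem cf_neg (f : SS k) (N n : ℤ) : cf (-f) N n = -cf f N n := by
  have h := cf_add f (-f) N n
  rw [add_neg_cancel, cf_zero] at h
  exact (neg_eq_of_add_eq_zero_right h.symm).symm

theorem cf_of_neg (f : SS k) {N : ℤ} (hN : N < 0) (n : ℤ) : cf f N n = 0 := by
  unfold cf
  rw [if_neg (not_le.2 hN)]

theorem coeff_C_mul (a : k) (g : LaurentPolynomial k) (n : ℤ) :
    (LaurentPolynomial.C a * g).coeff n = a * g.coeff n := by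
  rw [← LaurentPolynomial.smul_eq_C_mul, AddMonoidAlgebra.coeff_smul]
  rfl

theorem cf_iO_mul (a : OO k) (f : SS k) (N n : ℤ) (M : ℕ) (hM : N < M) :
    cf (iO a * f) N n = ∑ i ∈ Finset.range M, PowerSeries.coeff i a * cf f (N - i) n := by
  by_cases hN : 0 ≤ N
  · obtain ⟨N, rfl⟩ := Int.eq_ofNat_of_zero_le hN
    have hM' : N + 1 ≤ M := by omega
    have h1 : cf (iO a * f) (N : ℤ) n =
        ∑ i ∈ Finset.range (N + 1), PowerSeries.coeff i a * cf f ((N : ℤ) - i) n := by
      unfold cf
      rw [if_pos hN, Int.toNat_natCast, PowerSeries.coeff_mul,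
        Finset.Nat.sum_antidiagonal_eq_sum_range_succ_mk, AddMonoidAlgebra.coeff_sum,
        Finsupp.finsetSum_apply]
      refine Finset.sum_congr rfl fun i hi => ?_
      have hi' : i ≤ N := Nat.lt_succ_iff.1 (Finset.mem_range.1 hi)
      have h2 : PowerSeries.coeff i (iO a) = LaurentPolynomial.C (PowerSeries.coeff i a) := by
        unfold iO
        rw [PowerSeries.coeff_map]
      rw [if_pos (by omega : (0 : ℤ) ≤ (N : ℤ) - i), show ((N : ℤ) - i).toNat = N - i by omega]
      show (PowerSeries.coeff i (iO a) * PowerSeries.coeff (N - i) f).coeff n = _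
      rw [h2, coeff_C_mul]
    rw [h1]
    refine Finset.sum_subset (Finset.range_mono hM') fun i _ hi => ?_
    rw [cf_of_neg f (by
      have : ¬ i < N + 1 := fun h => hi (Finset.mem_range.2 h)
      omega), mul_zero]
  · rw [cf_of_neg _ (not_le.1 hN)]
    refine (Finset.sum_eq_zero fun i _ => ?_).symm
    rw [cf_of_neg f (by omega), mul_zero]

theorem t : S_LIN := by
  intro k _ κ c
  refine ⟨fun N n => ?_, fun f g hf hg N n => ?_, fun f hf N n => ?_, fun a f hf N n => ?_⟩
  · rw [cf_zero, cf_zero, mul_zero]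
  · rw [cf_add, cf_add, hf, hg, mul_add]
  · rw [cf_neg, cf_neg, hf, mul_neg]
  · obtain ⟨M, hM⟩ := exists_nat_gt (max N (N - n) : ℤ)
    rw [cf_iO_mul a f N (n + κ) M (by omega), cf_iO_mul a f (N - n) n M (by omega),
      Finset.mul_sum]
    refine Finset.sum_congr rfl fun i _ => ?_
    rw [hf, show N - (i : ℤ) - n = N - n - i by ring]
    ring

end Pool.Agent.Helper40.Tate.LIN
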